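import Pool.Agent.LPK.Stmts

/-! # Squad LPK, row PS0: a square -/

set_option autoImplicit false

noncomputable section

open Pool.Agent.LPK

namespace Pool.Agent.LPK.H64

theorem ps0 (hSUM : SumStmt) : Ps0Stmt := by
  intro n κ b b' hD α s
  obtain ⟨-, -, h3, h4⟩ := hSUM n κ κ b b b' b' hD hD
  have h1 := h3 s
  have h2 := Summable.tsum_mul_tsum h1 h1 (h4 s s)
  rw [← h2]
  have h5 : α ^ 2 + 2 * α * (∑' a : Fin n → ℤ, W1 s (pt b a)) +
      (∑' a : Fin n → ℤ, W1 s (pt b a)) * (∑' a : Fin n → ℤ, W1 s (pt b a)) =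
      (α + ∑' a : Fin n → ℤ, W1 s (pt b a)) ^ 2 := by ring
  rw [h5]
  exact sq_nonneg _

end Pool.Agent.LPK.H64
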